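import Pool.Agent.Y863.AA.MulAll

/-!
# One of the iterates `k, 2k, 3k` of `q ↦ 2 q - 1` at every scale, for almost all `k`

Let `S q = 2 q - 1`. For every `ε > 0` there is `L` such that for every interval `(u, u + H]`, `H ≥ L`,
there is `C` such that for every sufficiently large `X` all but `ε H` of the `k` in `(u, u + H]` are such
that for some `j` in `{k, 2k, 3k}` at least `X ^ (1 - η)` primes `q ∈ [X / C, X]` have a prime `S^j(q)`.
The question, for `2 q - 1` in `[N, 2 N]`, is about `j = 1`.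

The coloured Maynard-Tao theorem with a constant below `4` (`Pool.Agent.TH899.UG.NW.exactW`) is from
the starting files, the density Hales-Jewett theorem (`Pool.Agent.H602R3.DHJ`) is from the team's files.
-/

set_option autoImplicit false

namespace Pool.Agent.Results.MP_39a890_nt.AlmostAllExponents

open Finset Filter

/-- the map `q ↦ 2 q - 1` -/
def S (x : ℕ) : ℕ := 2 * x - 1

/-- the number of the primes `q ∈ [y, x]` such that `S^j(q)` is prime -/
noncomputable def count (j : ℕ) (y x : ℝ) : ℕ :=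
  {q : ℕ | (q.Prime ∧ (S^[j] q).Prime) ∧ y ≤ q ∧ (q : ℝ) ≤ x}.ncard

open Pool.Agent.W25.IT in
theorem iter_cast (p j : ℕ) (hp : 1 ≤ p) : ((S^[j] p : ℕ) : ℤ) = itc (-1) 2 j + p * 2 ^ j := by
  have h1 : ∀ j : ℕ, S^[j] p = 2 ^ j * (p - 1) + 1 := by
    intro j
    induction j with
    | zero => simp; omega
    | succ j ih =>
      rw [Function.iterate_succ_apply', ih]
      unfold S
      rw [pow_succ]
      have : 2 * (2 ^ j * (p - 1) + 1) = 2 ^ j * 2 * (p - 1) + 2 := by ring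
      omega
  have h2 : ∀ j : ℕ, itc (-1) 2 j = -(2 ^ j - 1) := by
    intro j
    induction j with
    | zero => rw [itc_zero]; norm_num
    | succ j ih => rw [itc_succ, ih]; ring
  rw [h1, h2]
  push_cast [Nat.cast_sub hp]
  ring

theorem count_eq (j : ℕ) (y x : ℝ) : count j y x = Pool.Agent.Y863.AA.cnt (-1) 2 j y x := by
  unfold count Pool.Agent.Y863.AA.cnt Pool.Agent.Y863.AA.PS
  congr 1
  ext p
  constructor
  · rintro ⟨⟨h1, h2⟩, h3⟩
    exact ⟨⟨h1, S^[j] p, h2, (iter_cast p j h1.one_lt.le).symm⟩, h3⟩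
  · rintro ⟨⟨h1, p', hp', h2⟩, h3⟩
    refine ⟨⟨h1, ?_⟩, h3⟩
    rw [← iter_cast p j h1.one_lt.le] at h2
    have : S^[j] p = p' := by exact_mod_cast h2
    rw [this]; exact hp'

open Classical in
theorem result : ∀ ε : ℝ, 0 < ε → ∃ L : ℕ, ∀ u H : ℕ, L ≤ H → ∃ C : ℕ, 1 ≤ C ∧
    ∀ η : ℝ, 0 < η → ∃ X₀ : ℕ, ∀ X : ℕ, X₀ ≤ X →
      (((Ioc u (u + H)).filter (fun k : ℕ => ¬ ∃ j ∈ ({k, 2 * k, 3 * k} : Finset ℕ),
        (X : ℝ) ^ (1 - η) ≤ (count j (X / C) X : ℝ))).card : ℝ) ≤ ε * H := by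
  intro ε hε
  obtain ⟨L, hL⟩ := Pool.Agent.Y863.AA.scaleTwo ε hε
  refine ⟨L, fun u H hH => ?_⟩
  obtain ⟨C, hC, h⟩ := hL u H hH
  refine ⟨C, hC, fun η hη => ?_⟩
  obtain ⟨X₀, hX₀⟩ := eventually_atTop.1 ((h (min η 1) (by positivity) (min_le_right _ _)).and
    (eventually_ge_atTop C))
  refine ⟨X₀ + 1, fun X hX => ?_⟩
  obtain ⟨h1, h2⟩ := hX₀ X (by omega)
  have h3 := h1 (-1) (by norm_num) ⟨by decide, by norm_num⟩ (by
    norm_num
    exact h2)
  refine le_trans ?_ h3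
  rw [Nat.cast_le]
  apply card_le_card
  intro k hk
  obtain ⟨h4, h5⟩ := mem_filter.1 hk
  refine mem_filter.2 ⟨h4, fun j hj1 hj3 => ?_⟩
  by_contra hge
  push Not at hge
  apply h5
  have hX1 : (1 : ℝ) ≤ X := by exact_mod_cast (by omega : 1 ≤ X)
  refine ⟨j * k, ?_, ?_⟩
  · have : j = 1 ∨ j = 2 ∨ j = 3 := by omega
    rcases this with rfl | rfl | rfl <;> simp
  · rw [count_eq]
    refine le_trans (Real.rpow_le_rpow_of_exponent_le hX1 ?_) hge
    linarith [min_le_left η 1]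

end Pool.Agent.Results.MP_39a890_nt.AlmostAllExponents
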