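import Pool.Agent.Y677.KP.Apply

set_option autoImplicit false

/-!
# Narrow progressions of primes `q` with `2 q - 1` prime or a product of at most three primes

Let `P` be the set of the primes `q` for which `2 q - 1` has at most three prime factors, all larger
than `q ^ (1 / 5)`: it contains all numbers `q = (p + 1) / 2` of the problem. For every `l` the interval
`(X, 2X]` contains `l`-term arithmetic progressions of elements of `P` with difference at most
`(log X) ^ B`. More generally, for an ARBITRARY subset `A` of the set `R s` of the `n` for which all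
prime factors of `n` and of `2 n - 1` are larger than `n ^ (1 / s)`, in every short interval all but a
small proportion of the expected number of elements of `A` are terms of such progressions inside `A`.
-/

namespace Pool.Agent.Results.MP_39a890_nt.NarrowProgressions

open Finset Filter
open Pool.Agent.TH977.PW (N)
open Pool.Agent.Y677.RSZ (InProg Outside)

/-- All prime factors of `n` and of `2 n - 1` are larger than `n ^ (1 / s)`. -/
def R (s : ℕ) : Set ℕ :=
  {n | (∀ p : ℕ, p.Prime → p ∣ n → (n : ℝ) ^ (1 / (s : ℝ)) < (p : ℝ)) ∧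
    ∀ p : ℕ, p.Prime → p ∣ 2 * n - 1 → (n : ℝ) ^ (1 / (s : ℝ)) < (p : ℝ)}

/-- The primes `q` for which `2 q - 1` has at most three prime factors, all larger than
`q ^ (1 / 5)`. -/
def P : Set ℕ :=
  {q | q.Prime ∧ (∀ p : ℕ, p.Prime → p ∣ 2 * q - 1 → (q : ℝ) ^ (1 / (5 : ℝ)) < (p : ℝ)) ∧
    (2 * q - 1).primeFactorsList.length ≤ 3}

/-- **Narrow progressions of primes `q` with `2 q - 1` prime or a product of at most three primes.** -/
theorem result :
    (∀ s : ℕ, 2 ≤ s → ∀ p : ℕ, p.Prime → ((p + 1) / 2).Prime → (p + 1) / 2 ∈ R s) ∧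
    (∀ p : ℕ, p.Prime → ((p + 1) / 2).Prime → (p + 1) / 2 ∈ P) ∧
    (∃ κ : ℝ, 0 < κ ∧ ∀ᶠ X : ℕ in atTop, κ * X / Real.log X ^ 2 ≤ N P X (2 * X)) ∧
    (∀ l : ℕ, ∃ B : ℕ, ∀ᶠ X : ℕ in atTop, ∃ u d : ℕ, 1 ≤ d ∧ (d : ℝ) ≤ Real.log X ^ B ∧
        ∀ i < l, u + i * d ∈ P ∧ X < u + i * d ∧ u + i * d ≤ 2 * X) ∧
    ∀ s : ℕ, 2 ≤ s → ∀ θ : ℝ, 0 < θ → ∀ l : ℕ, 2 ≤ l → ∀ ε : ℝ, 0 < ε → ∃ B : ℕ,
      ∀ᶠ X : ℕ in atTop, ∀ Y : ℕ, (X : ℝ) ^ θ ≤ Y → Y ≤ X → ∀ A : Set ℕ, A ⊆ R s →
        (N (Outside A l (Real.log X ^ B) X (X + Y)) X (X + Y) : ℝ) ≤ ε * Y / Real.log X ^ 2 := by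
  have hodd : ∀ p : ℕ, p.Prime → ((p + 1) / 2).Prime → 2 * ((p + 1) / 2) - 1 = p := by
    intro p hp hq
    rcases hp.eq_two_or_odd with h2 | h2
    · subst h2
      norm_num at hq
    · omega
  have hval : ∀ s : ℕ, 2 ≤ s → ∀ p : ℕ, p.Prime → ((p + 1) / 2).Prime → ∀ q : ℕ, q.Prime →
      q ∣ 2 * ((p + 1) / 2) - 1 → (((p + 1) / 2 : ℕ) : ℝ) ^ (1 / (s : ℝ)) < (q : ℝ) := by
    intro s hs p hp hp2 q hq hd
    rw [hodd p hp hp2] at hd
    have h2 := hp2.two_le
    exact Pool.Agent.Y677.KP.rough_val s _ p q hs h2 hp (by omega) hq hd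
  refine ⟨fun s hs p hp hp2 => ⟨fun q hq hd => Pool.Agent.Y677.KP.rough_prime s _ q hs hp2 hq hd,
    hval s hs p hp hp2⟩, fun p hp hp2 => ⟨hp2, fun q hq hd => by
      have h3 := hval 5 (by norm_num) p hp hp2 q hq hd
      exact_mod_cast h3, by rw [hodd p hp hp2, Nat.primeFactorsList_prime hp]; simp⟩, ?_⟩
  exact Pool.Agent.Y677.KP.lin_p 2 (-1) (by norm_num) (by norm_num [IsCoprime]) (by norm_num)
    (fun p hp => by
      refine ⟨1, by simpa using hp.one_lt.ne', ?_⟩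
      intro hd
      have h1 : (p : ℤ) ∣ 1 := by simpa using hd
      have := Int.le_of_dvd one_pos h1
      have := hp.two_le
      omega)
    (fun m => 2 * m - 1)
    (fun m hm => by
      show _ = ((2 * m - 1 : ℕ) : ℤ)
      push_cast [Nat.cast_sub (by omega : 1 ≤ 2 * m)]
      ring) R P
    (fun m hm => ⟨fun p hp hd => Pool.Agent.Y677.KP.rough_prime 5 m p (by norm_num) hm.1 hp hd,
      fun p hp hd => by exact_mod_cast hm.2.1 p hp hd⟩)
    (fun s _ m hm => hm)
    (fun m hm _ h2 h3 => ⟨hm, fun q hq hd => by exact_mod_cast h2 q hq hd, h3⟩)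

end Pool.Agent.Results.MP_39a890_nt.NarrowProgressions
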