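import Pool.Agent.TH977.PW.Inst

set_option autoImplicit false

/-!
# Regular neighbourhoods of the primes `q` with `2 q - 1` prime

Let `R r` be the set of the `q` for which all prime factors of `q` and of `2 q - 1` are larger than
`q ^ (1 / r)`; it contains all `q = (p + 1) / 2` of the problem. For an ARBITRARY subset `A` of `R r`,
in every short interval all but a small proportion of the elements of `A` are regular points of `A`.
-/

namespace Pool.Agent.Results.MP_39a890_nt.RegularPoints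

open Finset Filter
open Pool.Agent.TH977.PW (N Irregular)

/-- All prime factors of `q` and of `2 q - 1` are larger than `q ^ (1 / r)`. -/
def R (r : ℕ) : Set ℕ :=
  {q | (∀ p : ℕ, p.Prime → p ∣ q → (q : ℝ) ^ (1 / (r : ℝ)) < (p : ℝ)) ∧
    ∀ p : ℕ, p.Prime → p ∣ 2 * q - 1 → (q : ℝ) ^ (1 / (r : ℝ)) < (p : ℝ)}

/-- **Regular neighbourhoods of the primes `q` with `2 q - 1` prime.** -/
theorem result (θ : ℝ) (hθ : 0 < θ) (hθ1 : θ ≤ 1) :
    ∃ r₀ : ℕ, 2 ≤ r₀ ∧ ∀ r : ℕ, r₀ ≤ r →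
      (∀ p : ℕ, p.Prime → ((p + 1) / 2).Prime → (p + 1) / 2 ∈ R r) ∧
      (∃ κ : ℝ, 0 < κ ∧ ∀ᶠ X : ℕ in atTop, κ * X / Real.log X ^ 2 ≤
          N {q | q ∈ R r ∧ q.Prime ∧ (2 * q - 1).primeFactorsList.length ≤ r} X (2 * X)) ∧
      ∀ ε : ℝ, 0 < ε → ∃ c : ℝ, 0 < c ∧ ∀ δ : ℝ, 0 < δ → ∃ B : ℕ,
        ∀ᶠ X : ℕ in atTop, ∀ Y : ℕ, (X : ℝ) ^ θ ≤ Y → 2 * Y ≤ X → ∀ A : Set ℕ, A ⊆ R r →
          (N (Irregular A 2 c δ B X Y) X (X + Y) : ℝ) ≤ ε * Y / Real.log X ^ 2 := by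
  have e1 : ∀ m : ℕ, 1 ≤ m → ((2 : ℕ) : ℤ) * (m : ℤ) + (-1) = ((2 * m - 1 : ℕ) : ℤ) := by
    intro m hm
    push_cast [Nat.cast_sub (by omega : 1 ≤ 2 * m)]
    ring
  obtain ⟨r0, hr0, h⟩ := Pool.Agent.TH977.PW.final_lin_prime (ι := Fin 1) (fun _ => 2) (fun _ => -1)
    (fun _ => by norm_num) (fun _ => by norm_num [IsCoprime]) (fun _ _ _ _ => Subsingleton.elim _ _)
    (fun _ => by norm_num)
    (fun p hp => by
      refine ⟨1, by simpa using hp.one_lt.ne', fun _ => ?_⟩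
      intro hd
      have h1 : (p : ℤ) ∣ 1 := by simpa using hd
      have := Int.le_of_dvd one_pos h1
      have := hp.two_le
      omega)
    R (fun r => {q | q ∈ R r ∧ q.Prime ∧ (2 * q - 1).primeFactorsList.length ≤ r}) 2
    (by rw [Fintype.card_fin])
    (fun r m h2r hm => by
      refine ⟨hm.1, fun _ p hp hd => ?_⟩
      rcases Nat.eq_zero_or_pos m with h0 | h0
      · subst h0
        exfalso
        have h1 : (p : ℤ) ∣ 1 := by simpa using hd
        have h2 := Int.le_of_dvd one_pos h1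
        have h3 := hp.two_le
        omega
      · refine hm.2 p hp ?_
        rw [e1 m h0] at hd
        exact Int.natCast_dvd_natCast.1 hd)
    (fun r m h2r hm h1 h2 => by
      have hm1 : 1 ≤ m := hm.one_lt.le
      refine ⟨⟨fun p hp hd => Pool.Agent.TH977.PW.rpow_lt_dvd r m p h2r hm hp hd,
        fun p hp hd => h1 0 p hp ?_⟩, hm, ?_⟩
      · rw [e1 m hm1]
        exact Int.natCast_dvd_natCast.2 hd
      · have h3 := h2 0
        rw [e1 m hm1, Int.natAbs_natCast] at h3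
        exact h3) θ hθ hθ1
  refine ⟨r0, hr0, fun r hr => ⟨?_, (h r hr).1, (h r hr).2⟩⟩
  intro p hp hq
  have hq2 := hq.two_le
  have hodd : 2 * ((p + 1) / 2) - 1 = p := by
    rcases hp.eq_two_or_odd with h2 | h2
    · subst h2
      norm_num at hq
    · omega
  refine ⟨fun p' hp' hd => Pool.Agent.TH977.PW.rpow_lt_dvd r _ p' (hr0.trans hr) hq hp' hd,
    fun p' hp' hd => ?_⟩
  rw [hodd] at hd
  rw [(Nat.prime_dvd_prime_iff_eq hp' hp).1 hd]
  exact Pool.Agent.TH977.PW.rpow_lt_of_le r _ p (hr0.trans hr) hq2 (by omega)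

end Pool.Agent.Results.MP_39a890_nt.RegularPoints
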