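import Pool.Agent.Y816.PD.Dya

set_option autoImplicit false

/-!
# `p` and `(p + 1) / 2` almost primes, `N ≤ p ≤ 2 N`, with restricted binary digits of `(p + 1) / 2`

`p = 2 q - 1`. For every large `N` the integers `q` with `N ≤ 2 q - 1 ≤ 2 N` whose binary digit at the place `i`
belongs to an arbitrary set `A i ⊆ {0, 1}` for all `i < L = log₂ N - 2` are considered.
-/

namespace Pool.Agent.Results.MP_39a890_nt.RestrictedDigits

open Finset Filter
open Pool.Agent.Y816.PD (ND NA)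

/-- All prime factors of `q` and of `2 q - 1` are larger than `q ^ (1 / r)`. -/
def R (r : ℕ) : Set ℕ :=
  {q | ∀ l : ℕ, l.Prime → (l ∣ q ∨ l ∣ 2 * q - 1) → (q : ℝ) ^ (1 / (r : ℝ)) < (l : ℝ)}

/-- The `q` of `R r` for which `q` and `2 q - 1` have at most `r` prime factors. -/
def P (r : ℕ) : Set ℕ :=
  {q | q ∈ R r ∧ q.primeFactorsList.length ≤ r ∧ (2 * q - 1).primeFactorsList.length ≤ r}

open Classical in
/-- The number of `q ∈ S` with `N ≤ 2 q - 1 ≤ 2 N` whose binary digit at the place `i` belongs to `A i` for all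
`i < L`. -/
noncomputable def D (N L : ℕ) (A : ℕ → Finset ℕ) (S : Set ℕ) : ℕ :=
  ((range (2 * N + 1)).filter (fun q => (N ≤ 2 * q - 1 ∧ 2 * q - 1 ≤ 2 * N) ∧
    (∀ i < L, q / 2 ^ i % 2 ∈ A i) ∧ q ∈ S)).card

/-- **Almost primes `p = 2 q - 1` of every interval `[N, 2 N]` with almost prime `q = (p + 1) / 2` whose binary
digits, all but the three leading ones, are restricted to arbitrary sets.** -/
theorem result :
    ∃ c : ℝ, 0 < c ∧ ∃ r₀ : ℕ, 2 ≤ r₀ ∧ ∀ r : ℕ, r₀ ≤ r →
      (∀ p : ℕ, p.Prime → ((p + 1) / 2).Prime → p ≠ 2 → (p + 1) / 2 ∈ R r) ∧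
      ∃ κ C : ℝ, 0 < κ ∧ 0 < C ∧ ∀ᶠ N : ℕ in atTop, ∀ L : ℕ, L = Nat.log 2 N - 2 →
        ∀ A : ℕ → Finset ℕ, (∀ i < L, A i ⊆ range 2) → (2 : ℝ) ^ L ≤ Real.exp (c * L) * NA L A →
          (1 ∈ A 0 → κ * NA L A / (L : ℝ) ^ 2 ≤ D N L A (P r)) ∧
          (D N L A (R r) : ℝ) ≤ C * NA L A / (L : ℝ) ^ 2 := by
  classical
  obtain ⟨c, hc, r₀, hr₀, h⟩ := Pool.Agent.Y816.PD.exact_chain (fun j n => 2 ^ j * (n - 1) + 1)
    (Or.inr fun _ _ => rfl) 2 (by norm_num)
  have e0 : ∀ n : ℕ, 0 < n → 2 ^ 0 * (n - 1) + 1 = n := fun n hn => by omega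
  have e1 : ∀ n : ℕ, 0 < n → 2 ^ 1 * (n - 1) + 1 = 2 * n - 1 := fun n hn => by omega
  have hzero : ∀ r : ℕ, 2 ≤ r → ∀ p : ℕ, p.Prime → ((0 : ℕ) : ℝ) ^ (1 / (r : ℝ)) < (p : ℝ) := by
    intro r hr p hp
    have hr0 : (0 : ℝ) < r := by exact_mod_cast (by omega : 0 < r)
    rw [Nat.cast_zero, Real.zero_rpow (by positivity)]
    exact_mod_cast hp.pos
  refine ⟨c / 2, by positivity, r₀, hr₀, fun r hr => ⟨fun p hp hp2 hne => ?_, ?_⟩⟩
  · have h2r : 2 ≤ r := hr₀.trans hr
    have hodd : p % 2 = 1 := hp.eq_two_or_odd.resolve_left hne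
    obtain ⟨q, rfl⟩ : ∃ q, p = 2 * q - 1 := ⟨(p + 1) / 2, by omega⟩
    have hq : (2 * q - 1 + 1) / 2 = q := by omega
    rw [hq] at hp2 ⊢
    have h3 := hp2.two_le
    intro l hl hd
    rcases hd with hd | hd
    · exact Pool.Agent.TH977.PW.rpow_lt_dvd r q l h2r hp2 hl hd
    · rw [(Nat.prime_dvd_prime_iff_eq hl hp).1 hd]
      exact Pool.Agent.TH977.PW.rpow_lt_of_le r q _ h2r hp2.two_le (by omega)
  · have h2r : 2 ≤ r := hr₀.trans hr
    obtain ⟨κ, C, hκ, hC, h1⟩ := h r hr 2 le_rfl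
    obtain ⟨κ', C', hκ', hC', h2⟩ := Pool.Agent.Y816.PD.dyadic 2 (P r) (R r) (fun d => d = 1) c κ C hc hκ hC (by
      filter_upwards [h1] with K hK A hA hprod
      obtain ⟨hK1, hK2⟩ := hK A hA hprod
      constructor
      · rintro ⟨d, hd, hd1⟩
        refine (hK1 ⟨d, hd, fun j hj => ?_⟩).trans ?_
        · have hj2 : j = 0 ∨ j = 1 := by omega
          subst hd1
          rcases hj2 with rfl | rfl
          · decide
          · decide
        · have := Pool.Agent.Y816.PD.ND_mono (b := 2) (K := K) (A := A)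
            (S := {n | ((∀ j < 2, ∀ p : ℕ, p.Prime → p ∣ 2 ^ j * (n - 1) + 1 →
              (n : ℝ) ^ (1 / (r : ℝ)) < (p : ℝ)) ∧
              ∀ j < 2, (2 ^ j * (n - 1) + 1).primeFactorsList.length ≤ r) ∧ 1 < 2 ^ 2 * (n - 1) + 1 ∧
              ¬ (2 ^ 2 * (n - 1) + 1).Prime}) (T := P r) (fun n hn => by
              obtain ⟨⟨h3, h4⟩, h5, h6⟩ := hn
              have hn0 : 0 < n := by omega
              have h40 := h4 0 (by norm_num)
              have h41 := h4 1 (by norm_num)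
              rw [e0 n hn0] at h40
              rw [e1 n hn0] at h41
              refine ⟨fun p hp hd => ?_, h40, h41⟩
              rcases hd with hd | hd
              · apply h3 0 (by norm_num) p hp
                rwa [e0 n hn0]
              · apply h3 1 (by norm_num) p hp
                rwa [e1 n hn0])
          exact_mod_cast this
      · refine le_trans ?_ hK2
        have := Pool.Agent.Y816.PD.ND_mono (b := 2) (K := K) (A := A) (S := R r)
            (T := {n | ∀ j < 2, ∀ p : ℕ, p.Prime → p ∣ 2 ^ j * (n - 1) + 1 →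
              (n : ℝ) ^ (1 / (r : ℝ)) < (p : ℝ)}) (fun n hn j hj p hp hd => by
              rcases Nat.eq_zero_or_pos n with rfl | hn0
              · exact hzero r h2r p hp
              · have hj2 : j = 0 ∨ j = 1 := by omega
                rcases hj2 with rfl | rfl
                · rw [e0 n hn0] at hd
                  exact hn p hp (Or.inl hd)
                · rw [e1 n hn0] at hd
                  exact hn p hp (Or.inr hd))
        exact_mod_cast this)
    refine ⟨κ', C', hκ', hC', ?_⟩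
    filter_upwards [h2, eventually_ge_atTop 1] with N hN hN1 L hL A hA hprod
    have hD : ∀ S : Set ℕ, D N L A S =
        ((Icc (N / 2 + 1) N).filter (fun q => (∀ i < L, q / 2 ^ i % 2 ∈ A i) ∧ q ∈ S)).card := by
      intro S
      unfold D
      congr 1
      ext q
      simp only [mem_filter, mem_range, mem_Icc]
      constructor
      · rintro ⟨h3, h4, h5⟩
        exact ⟨by omega, h5⟩
      · rintro ⟨h3, h5⟩
        exact ⟨by omega, by omega, h5⟩
    obtain ⟨h3, h4⟩ := hN L hL A hA hprod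
    rw [hD, hD]
    exact ⟨fun h5 => h3 ⟨1, h5, rfl⟩, h4⟩

end Pool.Agent.Results.MP_39a890_nt.RestrictedDigits
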